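import Pool.Agent.H.MP_369bda_lc.A

set_option autoImplicit false

namespace Pool.Agent.H.MP_4814b8_lc

open Pool.Agent.H.MP_369bda_lc

/-- Finite non-empty vertex set, edges form a subset of `V × C × V`. -/
def Arena {C : Type} (G : Game C) : Prop :=
  Finite G.V ∧ Nonempty G.V ∧ Function.Injective fun e => (G.src e, G.col e, G.tgt e)

/-- Every arena has an optimal strategy with `k` states of general memory. -/
def GenMem {C : Type} (W : Set (Stream' C)) (k : ℕ) : Prop :=
  ∀ G : Game C, Arena G → ∃ (m₀ : Fin k) (δ : Fin k → G.E → Fin k) (σ : G.V → Fin k → G.E),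
    ∀ v, (∃ s, G.Wins W s v) → G.Wins W (fun h u => σ u (h.foldl δ m₀)) v

end Pool.Agent.H.MP_4814b8_lc
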