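import Pool.Agent.H.MP_369bda_lc.G
import Pool.Agent.H.MP_4814b8_lc.A

set_option autoImplicit false

namespace Pool.Agent.H.MP_4814b8_lc

open Pool.Agent.H.MP_369bda_lc

variable {C : Type} {G : Game C}

def Al (G : Game C) (a e : G.E) : Prop := G.src e = G.src a ∧ (G.eve (G.src a) → e = a)

lemma virt {M : Type} [Fintype M] (m₀ : M) (R : M → G.E → M → Prop) {W : Set (Stream' C)}
    (h : ∀ v m, ∃ a, G.src a = v ∧ ∀ e, Al G a e → ∃ m', R m e m')
    (k : ∀ v, (∃ s, G.Wins W s v) → ∀ (e : Stream' G.E) (m : ℕ → M), G.src (e.get 0) = v →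
      (∀ n, G.tgt (e.get n) = G.src (e.get (n + 1))) → m 0 = m₀ →
      (∀ n, R (m n) (e.get n) (m (n + 1))) → e.map G.col ∈ W) :
    ∃ (m₀ : Fin (Fintype.card M)) (δ : _ → G.E → _) (σ : G.V → _ → G.E),
      ∀ v, (∃ s, G.Wins W s v) → G.Wins W (fun h u => σ u (h.foldl δ m₀)) v := by
  classical
  choose σ a b using h
  let q := Fintype.equivFin M
  let δ (m : M) (e : G.E) : M := if h : ∃ m', R m e m' then h.choose else m
  have c (l : List G.E) : l.foldl (fun i e => q (δ (q.symm i) e)) (q m₀) = q (l.foldl δ m₀) :=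
    List.foldl_hom q fun _ _ => by simp
  refine ⟨q m₀, fun i e => q (δ (q.symm i) e), fun v i => σ v (q.symm i), fun v w =>
    ⟨fun _ _ => a _ _, fun e i j l => k v w e (fun n => (e.take n).foldl δ m₀) i j rfl fun n => ?_⟩⟩
  simp only [c, Equiv.symm_apply_apply] at l
  have := b (G.src (e.get n)) ((e.take n).foldl δ m₀) (e.get n)
    ⟨(a _ _).symm, fun p => l n (by rwa [a] at p)⟩
  rw [Stream'.take_succ', List.foldl_append]
  simp only [List.foldl, δ, dif_pos this]
  exact this.choose_spec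

lemma res {W : Set (Stream' C)} {s : List G.E → G.V → G.E} {v : G.V} (h : G.Wins W s v) {e : G.E}
    (a : Al G (s [] v) e) :
    G.Wins {w | Stream'.cons (G.col e) w ∈ W} (fun l => s (e :: l)) (G.tgt e) := by
  refine ⟨fun _ _ => h.1 _ _, fun f i j k => ?_⟩
  rw [Al, h.1] at a
  rw [Set.mem_ofPred_eq, ← Stream'.map_cons]
  refine h.2 (Stream'.cons e f) a.1 (fun n => ?_) fun n => ?_
  · cases n
    exacts [i.symm, j _]
  · cases n
    · intro p
      simp only [Stream'.get_zero_cons, a.1] at p ⊢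
      exact a.2 p
    · exact k _

lemma Wins.mono {W W' : Set (Stream' C)} (k : W ⊆ W') {s : List G.E → G.V → G.E} {v : G.V}
    (h : G.Wins W s v) : G.Wins W' s v := ⟨h.1, fun e a b c => k (h.2 e a b c)⟩

lemma Wins.ne {W : Set (Stream' C)} {s : List G.E → G.V → G.E} {v : G.V}
    (h : G.Wins W s v) : W.Nonempty :=
  let ⟨f, a, b, c⟩ := gen h.1 [] v
  ⟨_, h.2 f a b fun n _ => c n⟩

inductive St
  | top
  | bot
  | s (p : Bool) (n : ℕ) (b : Bool)

open St

open Classical in
noncomputable def act : St → Fin 5 → St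
  | top, _ => top
  | bot, _ => bot
  | s p n b, 0 => if p then top else s false (n + 1) b
  | s p n _, 1 => if p then top else s false (n + 1) (decide n.Prime)
  | s _ 0 _, 2 => bot
  | s _ (n + 1) b, 2 => s true n b
  | s _ n b, 3 => if n = 0 ∧ b = true then bot else top
  | s _ n b, 4 => if n = 0 ∧ b = false then bot else top

def Wx (x : St) : Set (Stream' (Fin 5)) := {w | ∀ n, (w.take n).foldl act x ≠ bot}

lemma f_top (l : List (Fin 5)) : l.foldl act top = top := by
  induction l <;> simp_all [act]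

lemma f_bot (l : List (Fin 5)) : l.foldl act bot = bot := by
  induction l <;> simp_all [act]

lemma W_top : Wx top = Set.univ := Set.eq_univ_of_forall fun _ _ => by simp [f_top]

lemma W_bot : Wx bot = ∅ := Set.eq_empty_of_forall_notMem fun _ h => h 0 rfl

lemma W_act (x : St) (c : Fin 5) : {w | Stream'.cons c w ∈ Wx x} = Wx (act x c) := by
  ext w
  refine ⟨fun h n => h (n + 1), fun h n => ?_⟩
  cases n
  · rintro rfl
    exact h 0 rfl
  · exact h _

lemma W_mono {x y : St} (h : Wx x ⊆ Wx y) (c : Fin 5) : Wx (act x c) ⊆ Wx (act y c) := by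
  rw [← W_act, ← W_act]
  exact fun _ a => h a

lemma W_lt (p : Bool) {n m : ℕ} (h : n < m) (b c : Bool) : Wx (s p n b) ⊆ Wx (s p m c) := by
  intro w a k i
  refine a k ?_
  clear a
  generalize w.take k = l at i
  induction l generalizing p n m b c with
  | nil => cases i
  | cons a l ih =>
    obtain ⟨m, rfl⟩ := Nat.exists_eq_add_one_of_ne_zero (h.trans_le' n.zero_le).ne'
    rw [List.foldl_cons] at *
    fin_cases a
    · cases p
      · exact ih _ (by omega) _ _ i
      · simp [act, f_top] at i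
    · cases p
      · exact ih _ (by omega) _ _ i
      · simp [act, f_top] at i
    · cases n
      · exact f_bot l
      · exact ih _ (by omega) _ _ i
    · simp [act, f_top] at i
    · simp [act, f_top] at i

def U (G : Game (Fin 5)) (F : St → Set (Stream' (Fin 5))) (v : G.V) (x : St) : Prop :=
  ∃ t, G.Wins (F x) t v

lemma U.nx {G : Game (Fin 5)} {F : St → Set (Stream' (Fin 5))}
    (f : ∀ x c, {w | Stream'.cons c w ∈ F x} = F (act x c)) {v : G.V} {x : St} (h : U G F v x) :
    ∃ a, G.src a = v ∧ ∀ e, Al G a e → U G F (G.tgt e) (act x (G.col e)) :=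
  let ⟨t, h⟩ := h
  ⟨_, h.1 [] v, fun _ a => ⟨_, f _ _ ▸ res h a⟩⟩

lemma U.all {G : Game (Fin 5)} {F : St → Set (Stream' (Fin 5))} (v : G.V) {x : St}
    (h : F x = Set.univ) : U G F v x := by
  choose o a using G.out
  exact ⟨fun _ => o, fun _ => a, fun _ _ _ _ => h ▸ trivial⟩

theorem genP : GenMem (Wx (s false 0 false)) 4 := by
  intro G _
  have (v : G.V) (p : Bool) : ∃ y : Bool → St, ∀ b, U G Wx v (y b) ∧
      ∀ n, U G Wx v (s p n b) → Wx (y b) ⊆ Wx (s p n b) := by
    classical
    by_cases h : ∃ n b, U G Wx v (s p n b)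
    · obtain ⟨c, k⟩ := Nat.find_spec h
      refine ⟨fun b => if U G Wx v (s p (Nat.find h) b) then s p (Nat.find h) b else
        s p (Nat.find h) c, fun b => ⟨by beta_reduce; split_ifs <;> assumption, fun n a => ?_⟩⟩
      beta_reduce
      rcases (Nat.find_min' h ⟨b, a⟩).lt_or_eq with l | l
      · split_ifs <;> exact W_lt _ l _ _
      · simp only [l, if_pos a, subset_rfl]
    · exact ⟨fun _ => top, fun b => ⟨.all v W_top, fun n a => (h ⟨n, b, a⟩).elim⟩⟩
  choose y h using this
  refine virt (M := Bool × Bool) (false, false)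
    (fun m e m' => Wx (y (G.tgt e) m'.1 m'.2) ⊆ Wx (act (y (G.src e) m.1 m.2) (G.col e)))
    (fun v m => ?_) fun v w e m a b c d => ?_
  · obtain ⟨a, rfl, i⟩ := (h v m.1 m.2).1.nx W_act
    refine ⟨a, rfl, fun e j => ?_⟩
    have := i e j
    rw [j.1]
    rcases k : act (y (G.src a) m.1 m.2) (G.col e) with _ | _ | ⟨p, n, b⟩ <;> rw [k] at this
    · exact ⟨m, W_top ▸ Set.subset_univ _⟩
    · obtain ⟨_, l⟩ := this
      simpa [W_bot] using Wins.ne l
    · exact ⟨(p, b), (h _ _ _).2 n this⟩
  · have (n : ℕ) : Wx (y (G.src (e.get n)) (m n).1 (m n).2) ⊆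
        Wx (rn act (s false 0 false) e n) := by
      induction n with
      | zero => rw [c, a]; exact (h _ _ _).2 0 w
      | succ n ih => rw [rn_succ, ← b]; exact (d n).trans (W_mono ih _)
    intro n k
    obtain ⟨_, l⟩ := (h (G.src (e.get n)) (m n).1 (m n).2).1
    have := (Wins.ne l).mono (this n)
    rw [rn, k, W_bot] at this
    exact Set.not_nonempty_empty this

end Pool.Agent.H.MP_4814b8_lc
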