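import Pool.Agent.H.MP_4814b8_lc.B

set_option autoImplicit false

namespace Pool.Agent.H.MP_4814b8_lc

open Pool.Agent.H.MP_369bda_lc St

variable {G : Game (Fin 5)}

lemma act_s {p q b d : Bool} {n m : ℕ} {c : Fin 5} (h : act (s p n b) c = s q m d) :
    (p = false ∧ q = false ∧ c ≠ 2 ∧ m = n + 1) ∨ (q = true ∧ c = 2 ∧ n = m + 1) := by
  fin_cases c <;> cases n <;> cases p <;> simp [act] at h ⊢ <;> grind

abbrev D (G : Game (Fin 5)) := U G fun x => (Wx x)ᶜ

lemma F_act (x : St) (c : Fin 5) : {w | Stream'.cons c w ∈ (Wx x)ᶜ} = (Wx (act x c))ᶜ := by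
  rw [← W_act]; rfl

lemma D_top {v : G.V} : ¬ D G v top := fun ⟨_, h⟩ => by simpa [W_top] using Wins.ne h

lemma D.dn {v : G.V} {x y : St} (h : D G v y) (k : Wx x ⊆ Wx y) : D G v x :=
  let ⟨t, h⟩ := h; ⟨t, Wins.mono (Set.compl_subset_compl.2 k) h⟩

def I (G : Game (Fin 5)) (p : Bool) (v : G.V) : Prop := ∀ n b, D G v (s p n b)

def rl (G : Game (Fin 5)) (u t : (ℕ × Bool) × (List G.E → G.V → G.E) × G.V) : Prop :=
  G.Wins (Wx (s false t.1.1 t.1.2))ᶜ t.2.1 t.2.2 ∧ ∃ e, Al G (t.2.1 [] t.2.2) e ∧
    act (s false t.1.1 t.1.2) (G.col e) = s false u.1.1 u.1.2 ∧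
    u.2.1 = (fun l => t.2.1 (e :: l)) ∧ u.2.2 = G.tgt e

lemma rl_wf : WellFounded (rl G) := by
  refine wellFounded_iff_isEmpty_descending_chain.2 ⟨fun ⟨f, a⟩ => ?_⟩
  choose w e a b c d using a
  let e : Stream' G.E := e
  have i (n : ℕ) : G.src (e.get n) = (f n).2.2 := (a n).1.trans ((w n).1 _ _)
  have j (n : ℕ) (l : List G.E) : (f n).2.1 l = (f 0).2.1 (e.take n ++ l) := by
    induction n generalizing l with
    | zero => rfl
    | succ n ih => rw [c, Stream'.take_succ', List.append_assoc]; exact ih _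
  have k (n : ℕ) : rn act (s false (f 0).1.1 (f 0).1.2) e n = s false (f n).1.1 (f n).1.2 := by
    induction n with
    | zero => rfl
    | succ n ih => rw [rn_succ, ih]; exact b n
  refine (w 0).2 e (i 0) (fun n => by rw [i, d]; rfl) (fun n p => ?_) fun n p => ?_
  · rw [← List.append_nil (e.take n), ← j, i]
    exact (a n).2 ((a n).1 ▸ p)
  · cases (k n).symm.trans p

theorem genA : GenMem (Wx (s false 0 false))ᶜ 4 := by
  intro G ⟨_, _⟩
  classical
  have (z : Bool × G.V) : ∃ T, ¬ I G z.1 z.2 → ∀ n ≥ T, ∀ b, ¬ D G z.2 (s z.1 n b) := by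
    by_cases h : I G z.1 z.2
    · exact ⟨0, fun k => (k h).elim⟩
    · obtain ⟨n, b, k⟩ : ∃ n b, ¬ D G z.2 (s z.1 n b) := by simpa only [I, not_forall] using h
      exact ⟨n + 1, fun _ m l c a => k (a.dn (W_lt _ l _ _))⟩
  choose T hT using this
  obtain ⟨T, hT⟩ : ∃ T, ∀ p v n b, T ≤ n → D G v (s p n b) → I G p v :=
    let ⟨N, h⟩ := (Set.finite_range T).bddAbove
    ⟨N, fun p v n b l a => by_contra fun k => hT (p, v) k n ((h ⟨_, rfl⟩).trans l) b a⟩
  have (v : G.V) (p : Bool) : ∃ y : Bool → St, ∀ b, D G v (y b) ∧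
      (y b = bot ∨ ∃ n c, y b = s p n c) ∧
      (¬ I G p v → ∀ n, D G v (s p n b) → Wx (s p n b) ⊆ Wx (y b)) := by
    by_cases h : ∃ n ≤ T, ∃ b, D G v (s p n b)
    · obtain ⟨n, l, h⟩ := h
      obtain ⟨c, k⟩ := Nat.findGreatest_spec (P := fun n => ∃ b, D G v (s p n b)) l h
      set N := Nat.findGreatest (fun n => ∃ b, D G v (s p n b)) T with hN
      refine ⟨fun b => if D G v (s p N b) then s p N b else s p N c, fun b =>
        ⟨by beta_reduce; split_ifs <;> assumption,
          .inr (by beta_reduce; split_ifs <;> exact ⟨_, _, rfl⟩), fun i n a => ?_⟩⟩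
      beta_reduce
      have : n ≤ N := Nat.le_findGreatest (le_of_not_ge fun l => i (hT _ _ _ _ l a)) ⟨b, a⟩
      rcases this.lt_or_eq with l | l
      · split_ifs <;> exact W_lt _ l _ _
      · simp only [← l, if_pos a, subset_rfl]
    · exact ⟨fun _ => bot, fun b => ⟨.all v (by simp [W_bot]), .inl rfl, fun i n a =>
        (h ⟨n, le_of_not_ge fun l => i (hT _ _ _ _ l a), b, a⟩).elim⟩⟩
  choose y hy using this
  have (v : G.V) : ∃ t : (ℕ × Bool) × (List G.E → G.V → G.E), I G false v →
      (T < t.1.1 ∧ G.Wins (Wx (s false t.1.1 t.1.2))ᶜ t.2 v) ∧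
      ∀ u : (ℕ × Bool) × (List G.E → G.V → G.E), T < u.1.1 ∧ G.Wins (Wx (s false u.1.1 u.1.2))ᶜ u.2 v →
        rk (rl G) (t.1, t.2, v) ≤ rk (rl G) (u.1, u.2, v) := by
    by_cases h : I G false v
    · obtain ⟨t, k⟩ := h (T + 1) false
      have n : {u : (ℕ × Bool) × (List G.E → G.V → G.E) |
          T < u.1.1 ∧ G.Wins (Wx (s false u.1.1 u.1.2))ᶜ u.2 v}.Nonempty :=
        ⟨((T + 1, false), t), T.lt_succ_self, k⟩
      let f (u : (ℕ × Bool) × (List G.E → G.V → G.E)) := rk (rl G) (u.1, u.2, v)
      have := Function.argminOn_mem f _ n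
      exact ⟨Function.argminOn f _ n, fun _ => ⟨this, fun u a => Function.argminOn_le f _ a⟩⟩
    · choose o _ using G.out
      exact ⟨((0, false), fun _ => o), fun k => (h k).elim⟩
  choose t ht using this
  let ρ (v : G.V) := rk (rl G) ((t v).1, (t v).2, v)
  let J (v : G.V) (m : Bool × Bool) (x : St) : Prop :=
    ∃ n c, x = s m.1 n c ∧ (I G m.1 v ∨ Wx x ⊆ Wx (y v m.1 m.2))
  refine virt (M := Bool × Bool) (false, false)
    (fun m e m' => ∀ x, J (G.src e) m x → (Wx (act x (G.col e))).Nonempty →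
      J (G.tgt e) m' (act x (G.col e)) ∧ (m.1 = false → m'.1 = false → I G false (G.src e) →
        I G false (G.tgt e) ∧ ρ (G.tgt e) < ρ (G.src e)))
    (fun v ⟨p, b⟩ => ?_) fun v w e m a b c d W => ?_
  · have dn {u : G.V} {q : Bool} (i : I G true u) (x : St) (a : ∃ n c, x = s q n c)
        (k : (Wx (act x 2)).Nonempty) : J u (true, b) (act x 2) := by
      obtain ⟨_ | n, c, rfl⟩ := a
      · simp [act, W_bot] at k
      · exact ⟨n, c, rfl, .inl i⟩
    by_cases i : I G p v
    · cases p
      · obtain ⟨⟨l, w⟩, mn⟩ := ht v i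
        refine ⟨_, w.1 [] v, fun e j => ?_⟩
        have k : D G (G.tgt e) _ := ⟨_, F_act _ _ ▸ res w j⟩
        have k' := F_act _ _ ▸ res w j
        have sv : G.src e = v := j.1.trans (w.1 _ _)
        rcases z : act (s false (t v).1.1 (t v).1.2) (G.col e) with _ | _ | ⟨q, n, c⟩ <;>
          rw [z] at k k'
        · exact (D_top k).elim
        · exfalso
          generalize G.col e = c, (t v).1.1 = n at z l
          fin_cases c <;> cases n <;> simp [act] at z l
        rcases act_s z with ⟨-, rfl, u, rfl⟩ | ⟨rfl, u, r⟩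
        · have i' := hT _ _ _ _ (by omega) k
          refine ⟨(false, b), ?_⟩
          rintro _ ⟨n', c', rfl, -⟩ -
          refine ⟨?_, fun _ _ _ => ⟨i', ?_⟩⟩
          · generalize G.col e = c at z u
            fin_cases c
            exacts [⟨_, _, rfl, .inl i'⟩, ⟨_, _, rfl, .inl i'⟩, (u rfl).elim,
              by simp [act] at z; grind, by simp [act] at z; grind]
          · rw [sv]
            exact ((ht _ i').2 ((_, c), _) ⟨by simp only; omega, k'⟩).trans_lt
              (rk_lt rl_wf ⟨w, e, j, z, rfl, rfl⟩)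
        · refine ⟨(true, b), fun x ⟨n', c', f, _⟩ g => ⟨?_, fun _ => by simp⟩⟩
          rw [u] at *
          exact dn (hT _ _ _ _ (by omega) k) x ⟨_, _, f⟩ g
      · obtain ⟨a, rfl, h⟩ := (i (T + 1) false).nx F_act
        refine ⟨a, rfl, fun e j => ⟨(true, b), fun x ⟨n', c', f, _⟩ g => ⟨?_, by simp⟩⟩⟩
        have k := h e j
        generalize G.col e = c at *
        have : c = 2 := by
          fin_cases c <;> first | rfl | exact (D_top (by simpa [act] using k)).elim
        subst this
        exact dn (hT _ _ _ _ le_rfl k) x ⟨_, _, f⟩ g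
    · obtain ⟨a, rfl, h⟩ := (hy v p b).1.nx F_act
      refine ⟨a, rfl, fun e j => ?_⟩
      have k := h e j
      rw [j.1]
      have nb (x : St) (f : J (G.src a) (p, b) x) :
          Wx (act x (G.col e)) ⊆ Wx (act (y (G.src a) p b) (G.col e)) :=
        let ⟨_, _, _, f⟩ := f; W_mono (f.resolve_left i) _
      rcases z : act (y (G.src a) p b) (G.col e) with _ | _ | ⟨q, n, c⟩ <;> rw [z] at k nb
      · exact (D_top k).elim
      · exact ⟨(p, b), fun x f g => by simpa [W_bot] using g.mono (nb x f)⟩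
      refine ⟨(q, c), fun x f g => ⟨?_, fun r _ u => (i (by simp only at r; rwa [r])).elim⟩⟩
      have l := nb x f
      obtain ⟨n', c', rfl, -⟩ := f
      rcases z' : act (s p n' c') (G.col e) with _ | _ | ⟨q', n, c⟩ <;> simp only [z'] at g l ⊢
      · exact (D_top (D.dn k l)).elim
      · simp [W_bot] at g
      obtain rfl : q = q' := by
        rcases (hy (G.src a) p b).2.1 with r | ⟨_, _, r⟩ <;> rw [r] at z
        · simp [act] at z
        · have := act_s z
          have := act_s z'
          grind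
      exact ⟨_, _, rfl, (em _).imp_right fun r => l.trans ((hy _ _ _).2.2 r _ k)⟩
  · have ne (n : ℕ) : (Wx (rn act (s false 0 false) e n)).Nonempty :=
      ⟨(e.map G.col).drop n, fun k => by
        rw [rn, ← List.foldl_append, ← Stream'.take_add]; exact W _⟩
    have j (n : ℕ) : J (G.src (e.get n)) (m n) (rn act (s false 0 false) e n) := by
      induction n with
      | zero =>
        rw [c, a]
        exact ⟨0, false, rfl, (em _).imp_right fun r => (hy _ _ _).2.2 r _ w⟩
      | succ n ih => rw [← b, rn_succ]; exact (d n _ ih (rn_succ act _ e n ▸ ne _)).1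
    have d (n : ℕ) := (d n _ (j n) (rn_succ act _ e n ▸ ne _)).2
    choose k c f g using j
    have st (n : ℕ) := act_s (show act (s (m n).1 (k n) (c n)) (G.col (e.get n)) =
      s (m (n + 1)).1 (k (n + 1)) (c (n + 1)) by rw [← f, ← rn_succ act, f])
    by_cases h : ∃ n, (m n).1 = true
    · obtain ⟨n, h⟩ := h
      have (i : ℕ) : (m (n + i)).1 = true ∧ k (n + i) + i = k n := by
        induction i with
        | zero => exact ⟨h, rfl⟩
        | succ i ih => have := st (n + i); rw [← add_assoc]; grind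
      have := (this (k n + 1)).2
      omega
    · have h (n : ℕ) : (m n).1 = false := by simpa using fun r => h ⟨n, r⟩
      have l (n : ℕ) : n ≤ k n := by
        induction n with
        | zero => exact Nat.zero_le _
        | succ n ih => have := st n; have := h (n + 1); grind
      have i (n : ℕ) : I G false (G.src (e.get (T + n))) := by
        induction n with
        | zero =>
          have := g T
          rw [f, h] at this
          exact this.elim id fun r => hT _ _ _ _ (l T) ((hy _ _ _).1.dn r)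
        | succ n ih => rw [← add_assoc, ← b]; exact (d _ (h _) (h _) ih).1
      exact (wellFounded_iff_isEmpty_descending_chain.1 (wellFounded_lt (α := Ordinal.{0}))).false
        ⟨fun n => ρ (G.src (e.get (T + n))), fun n => by
          beta_reduce; rw [← add_assoc, ← b]; exact (d _ (h _) (h _) (i n)).2⟩

end Pool.Agent.H.MP_4814b8_lc
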