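import Pool.Agent.H.MP_4814b8_lc.C

set_option autoImplicit false

namespace Pool.Agent.H.MP_4814b8_lc

open Pool.Agent.H.MP_369bda_lc St List

abbrev Nd (L : Bool → List (Fin 5)) := {l // l <:+ L true ∨ l <:+ L false}

def Eg {L : Bool → List (Fin 5)} (e : Nd L × Fin 5 × Nd L) : Prop :=
  e.1.1 = e.2.1 :: e.2.2.1 ∨ e.1.1 = [] ∧ e.2.2.1 = [] ∧ (e.2.1 = 3 ∨ e.2.1 = 4)

def eg {L : Bool → List (Fin 5)} (b : Bool) : Nd L → {e : Nd L × Fin 5 × Nd L // Eg e}
  | ⟨[], h⟩ => ⟨(⟨[], h⟩, cond b 4 3, ⟨[], h⟩), .inr ⟨rfl, rfl, by cases b <;> simp⟩⟩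
  | ⟨a :: l, h⟩ => ⟨(⟨_, h⟩, a, ⟨l, h.imp (suffix_cons a l).trans (suffix_cons a l).trans⟩), .inl rfl⟩

lemma eg_src {L : Bool → List (Fin 5)} (b : Bool) (v : Nd L) : (eg b v).1.1 = v := by
  obtain ⟨_ | _, h⟩ := v <;> rfl

def Ar (L : Bool → List (Fin 5)) : Game (Fin 5) where
  V := Nd L
  E := {e : Nd L × Fin 5 × Nd L // Eg e}
  src e := e.1.1
  tgt e := e.1.2.2
  col e := e.1.2.1
  eve _ := True
  out v := ⟨eg true v, eg_src _ _⟩

lemma Ar_ar (L : Bool → List (Fin 5)) : Arena (Ar L) :=
  ⟨Set.Finite.to_subtype (s := {l | l <:+ L true ∨ l <:+ L false})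
    (((L true).tails.finite_toSet.union (L false).tails.finite_toSet).subset fun l h => by
      simpa using h), ⟨⟨[], .inl nil_suffix⟩⟩, fun _ _ h => Subtype.ext h⟩

lemma play {L : Bool → List (Fin 5)} (l : List (Fin 5)) (f : Stream' (Ar L).E)
    (a : ((Ar L).src (f.get 0)).1 = l) (b : ∀ n, (Ar L).tgt (f.get n) = (Ar L).src (f.get (n + 1))) :
    (f.take l.length).map (Ar L).col = l ∧ ((Ar L).src (f.get l.length)).1 = [] := by
  induction l generalizing f with
  | nil => exact ⟨rfl, a⟩
  | cons c l ih =>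
    rcases (f.get 0).2 with h | h
    · obtain ⟨rfl, rfl⟩ := cons.inj (a.symm.trans h)
      obtain ⟨i, j⟩ := ih f.tail (congrArg Subtype.val (b 0).symm) fun n => b (n + 1)
      exact ⟨congrArg (cons _) i, j⟩
    · cases a.symm.trans h.1

lemma W_fin {x : St} {w : Stream' (Fin 5)} {n : ℕ} (h : (w.take n).foldl act x = top) :
    w ∈ Wx x := fun k i => by
  rcases le_total k n with l | l <;> obtain ⟨m, rfl⟩ := Nat.exists_eq_add_of_le l
  · rw [Stream'.take_add, foldl_append, i, f_bot] at h
    cases h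
  · rw [Stream'.take_add, foldl_append, h, f_top] at i
    cases i

lemma sep {L : Bool → List (Fin 5)} (h : ∀ b, ∃ p, (L b).foldl act (s false 0 false) = s p 0 b)
    {M : Type} {m₀ : M} {μ : M → Fin 5 → M} (k : (Ar L).Suf (Wx (s false 0 false)) m₀ μ) :
    (L true).foldl μ m₀ ≠ (L false).foldl μ m₀ := by
  obtain ⟨σ, k⟩ := k
  choose q h using h
  let z : Nd L := ⟨[], .inl nil_suffix⟩
  have tk (b : Bool) (f : Stream' (Ar L).E) (a : ((Ar L).src (f.get 0)).1 = L b)
      (c : ∀ n, (Ar L).tgt (f.get n) = (Ar L).src (f.get (n + 1))) :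
      ((f.map (Ar L).col).take ((L b).length + 1)).foldl act (s false 0 false) =
        act (s (q b) 0 b) ((Ar L).col (f.get (L b).length)) := by
    rw [Stream'.take_succ', foldl_append, ← Stream'.map_take, (play _ f a c).1, h]
    rfl
  have (b : Bool) : (Ar L).src (σ z ((L b).foldl μ m₀)) = z ∧
      act (s (q b) 0 b) ((Ar L).col (σ z ((L b).foldl μ m₀))) ≠ bot := by
    let v : Nd L := ⟨L b, by cases b <;> simp⟩
    have w := k v ⟨fun _ => eg b, fun _ => eg_src b, fun f a c d => W_fin (n := (L b).length + 1) (by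
      have a := congrArg Subtype.val a
      rw [tk b f a c, d _ trivial, show (Ar L).src (f.get (L b).length) = z from
        Subtype.ext (play _ f a c).2]
      cases b <;> simp [z, eg, Ar, act])⟩
    obtain ⟨f, a, c, d⟩ := gen w.1 [] v
    have i := w.2 f a c (fun n _ => d n) ((L b).length + 1)
    have a := congrArg Subtype.val a
    rw [tk b f a c, d, nil_append, (play _ f a c).1, show (Ar L).src (f.get (L b).length) = z from
      Subtype.ext (play _ f a c).2] at i
    have := w.1 (f.take (L b).length) z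
    exact ⟨by rw [← (play (L b) f a c).1]; exact this, i⟩
  intro e
  obtain ⟨i, j⟩ := this true
  have l := (this false).2
  rw [← e] at l
  rcases (σ z ((L true).foldl μ m₀)).2 with r | ⟨-, -, r | r⟩
  · cases (congrArg Subtype.val i).symm.trans r
  · exact j (by rw [show (Ar L).col _ = 3 from r]; simp [act])
  · exact l (by rw [show (Ar L).col _ = 4 from r]; simp [act])

lemma f_rep {M A : Type} (μ : M → A → M) (a : A) (n : ℕ) (m : M) :
    (replicate n a).foldl μ m = (μ · a)^[n] m := by
  induction n generalizing m with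
  | zero => rfl
  | succ n ih => exact ih _

lemma up (j n : ℕ) (b : Bool) : (act · 0)^[j] (s false n b) = s false (n + j) b := by
  induction j with
  | zero => rfl
  | succ j ih => rw [Function.iterate_succ_apply', ih]; rfl

lemma dw (j : ℕ) (p b : Bool) : ∃ q, (act · 2)^[j] (s p j b) = s q 0 b := by
  induction j generalizing p with
  | zero => exact ⟨p, rfl⟩
  | succ j ih => exact ih true

theorem chr (k : ℕ) : ¬ Mem (Wx (s false 0 false)) k Arena := by
  intro h
  obtain ⟨a, p, e⟩ : ∃ a p, ∀ f : Fin k → Fin k, f^[a + (p + 1)] = f^[a] := by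
    obtain ⟨a, b, n, e⟩ := Finite.exists_ne_map_eq_of_infinite fun (n : ℕ) (f : Fin k → Fin k) => f^[n]
    wlog l : a < b generalizing a b
    · exact this b a n.symm e.symm (by omega)
    obtain ⟨p, rfl⟩ := Nat.exists_eq_add_of_lt l
    exact ⟨a, p, fun f => (congrFun e f).symm⟩
  obtain ⟨i, l, pi⟩ := Nat.exists_infinite_primes a
  have g (f : Fin k → Fin k) (j : ℕ) : f^[i + j * (p + 1)] = f^[i] := by
    obtain ⟨i, rfl⟩ := Nat.exists_eq_add_of_le' l
    induction j with
    | zero => simp
    | succ j ih =>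
      rw [← ih, Nat.succ_mul, show i + a + (j * (p + 1) + (p + 1)) = i + j * (p + 1) + (a + (p + 1)) by
        omega, Function.iterate_add, e, ← Function.iterate_add, add_right_comm]
  let u (b : Bool) := cond b i (i + i * (p + 1))
  let L (b : Bool) : List (Fin 5) :=
    replicate (u b) 0 ++ 1 :: (replicate (u !b) 0 ++ replicate (u b + 1 + u !b) 2)
  obtain ⟨m₀, μ, h⟩ := h (Ar L) (Ar_ar L)
  refine sep (fun b => ?_) h ?_
  · have : decide (u b).Prime = b := by
      cases b
      · have := pi.two_le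
        exact decide_eq_false (by
          rw [show u false = i * (p + 2) by simp only [u, cond]; ring]
          exact Nat.not_prime_mul (by omega) (by omega))
      · exact decide_eq_true pi
    have k : act (s false (u b) false) 1 = s false (u b + 1) b := by simp [act, this]
    simp only [L, foldl_append, foldl_cons, f_rep, up, zero_add, k]
    exact dw _ false b
  · simp only [L, foldl_append, foldl_cons, f_rep, u, cond, Bool.not, g]
    congr 1
    omega

end Pool.Agent.H.MP_4814b8_lc
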